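import Mathlib
import Pool.Agent.H27.B95.Bound

set_option autoImplicit false

/-!
# Solutions of `(x^2-1)(y^2-1)=(z^2-1)^2` with `z ∣ x - y`, and common divisors of `z` and `x - y`
-/

namespace Pool.Agent.Results.MP_b95629_nt.CommonDivisor

open Pool.Agent.H27.B95

lemma two_le_abs_of (a : ℤ) (h : 1 < a ^ 2) : 2 ≤ |a| := by
  by_contra hcon
  push Not at hcon
  have h1 : |a| ≤ 1 := by omega
  have h2 : |a| ^ 2 ≤ 1 ^ 2 := pow_le_pow_left₀ (abs_nonneg a) h1 2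
  rw [sq_abs] at h2
  linarith

/-- nontrivial solutions have entries of absolute value at least two -/
lemma big (x y z : ℤ) (E : (x ^ 2 - 1) * (y ^ 2 - 1) = (z ^ 2 - 1) ^ 2) (hxy : |x| ≠ |y|)
    (hz : |z| ≠ 1) : 2 ≤ |x| ∧ 2 ≤ |y| ∧ 2 ≤ |z| := by
  have hsq : x ^ 2 ≠ y ^ 2 := fun h => hxy ((sq_eq_sq_iff_abs_eq_abs x y).mp h)
  have hz0 : z ≠ 0 := by
    rintro rfl
    have h1 : (x ^ 2 - 1) * (y ^ 2 - 1) = 1 := by rw [E]; norm_num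
    rcases Int.eq_one_or_neg_one_of_mul_eq_one' h1 with ⟨h2, h3⟩ | ⟨h2, h3⟩
    · exact hsq (by linarith)
    · exact hsq (by linarith)
  have hz1 : 2 ≤ |z| := by
    have h1 : 0 < |z| := abs_pos.mpr hz0
    omega
  have hz2 : 4 ≤ z ^ 2 := by
    have := pow_le_pow_left₀ (by norm_num) hz1 2
    rw [sq_abs] at this
    linarith
  have hpos : 0 < (z ^ 2 - 1) ^ 2 := by
    have : 0 < z ^ 2 - 1 := by linarith
    positivity
  have hbig : 9 ≤ (z ^ 2 - 1) ^ 2 := by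
    have := pow_le_pow_left₀ (by norm_num) (show (3 : ℤ) ≤ z ^ 2 - 1 by linarith) 2
    linarith
  rw [← E] at hpos hbig
  have hx0 : 0 ≤ x ^ 2 := sq_nonneg x
  have hy0 : 0 ≤ y ^ 2 := sq_nonneg y
  rcases (mul_pos_iff.mp hpos) with ⟨h1, h2⟩ | ⟨h1, h2⟩
  · exact ⟨two_le_abs_of x (by linarith), two_le_abs_of y (by linarith), hz1⟩
  · exfalso
    have h3 : x ^ 2 = 0 := by omega
    have h4 : y ^ 2 = 0 := by omega
    exact hsq (by rw [h3, h4])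

lemma core_lt (x y z q : ℤ) (E : (x ^ 2 - 1) * (y ^ 2 - 1) = (z ^ 2 - 1) ^ 2) (hxy : |y| < |x|)
    (hz : |z| ≠ 1) (h2 : |x - y| ≠ 2 * |z|) (hq0 : 0 < q) (hqz : q ∣ z) (hqx : q ∣ x - y) :
    ∃ k, |z| = q * k ∧ 2 ≤ k ∧ q ^ 2 < 8 * k ^ 6 := by
  obtain ⟨hX, hY, hZ⟩ := big x y z E hxy.ne' hz
  have hE : (|x| ^ 2 - 1) * (|y| ^ 2 - 1) = (|z| ^ 2 - 1) ^ 2 := by
    rw [sq_abs, sq_abs, sq_abs]; exact E
  have hY2 : 4 ≤ |y| ^ 2 := by
    have := pow_le_pow_left₀ (by norm_num) hY 2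
    linarith
  have hXY2 : |y| ^ 2 < |x| ^ 2 := pow_lt_pow_left₀ hxy (abs_nonneg y) (by norm_num)
  have hZ2 : 4 ≤ |z| ^ 2 := by
    have := pow_le_pow_left₀ (by norm_num) hZ 2
    linarith
  have hyz : |y| < |z| := by
    have h3 : (|y| ^ 2 - 1) ^ 2 < (|z| ^ 2 - 1) ^ 2 := by
      rw [← hE, sq (|y| ^ 2 - 1)]
      exact mul_lt_mul_of_pos_right (by linarith) (by linarith)
    have h4 : |y| ^ 2 - 1 < |z| ^ 2 - 1 := lt_of_pow_lt_pow_left₀ 2 (by linarith) h3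
    exact lt_of_pow_lt_pow_left₀ 2 (abs_nonneg z) (by linarith)
  have hzx : |z| < |x| := by
    have h3 : (|z| ^ 2 - 1) ^ 2 < (|x| ^ 2 - 1) ^ 2 := by
      rw [← hE, sq (|x| ^ 2 - 1)]
      exact mul_lt_mul_of_pos_left (by linarith) (by linarith)
    have h4 : |z| ^ 2 - 1 < |x| ^ 2 - 1 := lt_of_pow_lt_pow_left₀ 2 (by linarith) h3
    exact lt_of_pow_lt_pow_left₀ 2 (abs_nonneg x) (by linarith)
  have hqz' : q ∣ |z| := (dvd_abs q z).mpr hqz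
  have hqx' : q ∣ |x - y| := (dvd_abs q (x - y)).mpr hqx
  have hx0 : x ≠ 0 := by
    rintro rfl
    simp at hX
  have hy0 : y ≠ 0 := by
    rintro rfl
    simp at hY
  rcases lt_or_gt_of_ne (mul_ne_zero hx0 hy0) with hneg | hpos
  · have h5 : |x - y| = |x| - (-1) * |y| := by
      rcases mul_neg_iff.mp hneg with ⟨h6, h7⟩ | ⟨h6, h7⟩
      · rw [abs_of_pos h6, abs_of_neg h7, abs_of_pos (by linarith)]; ring
      · rw [abs_of_neg h6, abs_of_pos h7, abs_of_neg (by linarith)]; ring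
    rw [h5] at hqx'
    exact core (-1) |x| |y| |z| q (Or.inr rfl) hY hyz hzx hE (by norm_num) hq0 hqz' hqx'
  · have h5 : |x - y| = |x| - 1 * |y| := by
      rcases mul_pos_iff.mp hpos with ⟨h6, h7⟩ | ⟨h6, h7⟩
      · rw [abs_of_pos h6, abs_of_pos h7] at hxy ⊢
        rw [abs_of_pos (by linarith)]; ring
      · rw [abs_of_neg h6, abs_of_neg h7] at hxy ⊢
        rw [abs_of_neg (by linarith)]; ring
    rw [h5] at hqx' h2
    refine core 1 |x| |y| |z| q (Or.inl rfl) hY hyz hzx hE ?_ hq0 hqz' hqx'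
    intro _ h
    exact h2 (by linarith)

lemma core_ne (x y z q : ℤ) (E : (x ^ 2 - 1) * (y ^ 2 - 1) = (z ^ 2 - 1) ^ 2) (hxy : |x| ≠ |y|)
    (hz : |z| ≠ 1) (h2 : |x - y| ≠ 2 * |z|) (hq0 : 0 < q) (hqz : q ∣ z) (hqx : q ∣ x - y) :
    ∃ k, |z| = q * k ∧ 2 ≤ k ∧ q ^ 2 < 8 * k ^ 6 := by
  rcases lt_or_gt_of_ne hxy with h | h
  · apply core_lt y x z q (by linarith) h hz _ hq0 hqz
    · have := (dvd_neg (a := q) (b := x - y)).mpr hqx
      rwa [neg_sub] at this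
    · rwa [abs_sub_comm]
  · exact core_lt x y z q E h hz h2 hq0 hqz hqx

lemma gcd_bound (x y z : ℤ) (E : (x ^ 2 - 1) * (y ^ 2 - 1) = (z ^ 2 - 1) ^ 2) (hxy : |x| ≠ |y|)
    (hz : |z| ≠ 1) (h2 : |x - y| ≠ 2 * |z|) : (Int.gcd z (x - y) : ℤ) ^ 4 < 3 * |z| ^ 3 := by
  obtain ⟨hX, hY, hZ⟩ := big x y z E hxy hz
  have hz0 : z ≠ 0 := by
    rintro rfl
    simp at hZ
  have hq0 : (0 : ℤ) < (Int.gcd z (x - y) : ℤ) := by
    exact_mod_cast Int.gcd_pos_of_ne_zero_left _ hz0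
  obtain ⟨k, hk, hk2, hb⟩ := core_ne x y z _ E hxy hz h2 hq0 (Int.gcd_dvd_left ..)
    (Int.gcd_dvd_right ..)
  generalize (Int.gcd z (x - y) : ℤ) = q at *
  apply lt_of_pow_lt_pow_left₀ 2 (by positivity)
  have h3 : q ^ 2 * q ^ 6 < 8 * k ^ 6 * q ^ 6 := mul_lt_mul_of_pos_right hb (by positivity)
  have h4 : 8 * k ^ 6 * q ^ 6 = 8 * |z| ^ 6 := by rw [hk]; ring
  have h5 : 0 < |z| ^ 6 := by positivity
  calc (q ^ 4) ^ 2 = q ^ 2 * q ^ 6 := by ring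
    _ < 8 * k ^ 6 * q ^ 6 := h3
    _ = 8 * |z| ^ 6 := h4
    _ < 9 * |z| ^ 6 := by linarith
    _ = (3 * |z| ^ 3) ^ 2 := by ring

lemma not_dvd (x y z : ℤ) (E : (x ^ 2 - 1) * (y ^ 2 - 1) = (z ^ 2 - 1) ^ 2) (hxy : |x| ≠ |y|)
    (hz : |z| ≠ 1) (h2 : |x - y| ≠ 2 * |z|) : ¬ z ∣ x - y := by
  intro hd
  obtain ⟨hX, hY, hZ⟩ := big x y z E hxy hz
  obtain ⟨k, hk, hk2, hb⟩ := core_ne x y z |z| E hxy hz h2 (by linarith) ((abs_dvd z z).mpr dvd_rfl)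
    ((abs_dvd z (x - y)).mpr hd)
  have : |z| * 2 ≤ |z| * k := mul_le_mul_of_nonneg_left hk2 (by linarith)
  linarith

lemma family (x y z : ℤ) (E : (x ^ 2 - 1) * (y ^ 2 - 1) = (z ^ 2 - 1) ^ 2)
    (h2 : |x - y| = 2 * |z|) :
    (|x| = |y| ∧ |y| = |z|) ∨ ∃ w : ℤ, x + y = 4 * w ∧ z ^ 2 + 1 = 2 * w ^ 2 := by
  have h3 : (x - y) ^ 2 = 4 * z ^ 2 := by
    rw [← sq_abs (x - y), h2, mul_pow, sq_abs]; norm_num
  have h4 : (x * y - z ^ 2 - 2) * (x * y + z ^ 2) = 0 := by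
    linear_combination E + h3
  rcases mul_eq_zero.mp h4 with h5 | h5
  · right
    have h6 : (x + y) ^ 2 = 8 * (z ^ 2 + 1) := by linear_combination h3 + 4 * h5
    have h7 : (2 : ℤ) ∣ x + y := by
      have : (2 : ℤ) ∣ (x + y) ^ 2 := ⟨4 * (z ^ 2 + 1), by rw [h6]; ring⟩
      exact Int.prime_two.dvd_of_dvd_pow this
    obtain ⟨u, hu⟩ := h7
    have h8 : u ^ 2 = 2 * (z ^ 2 + 1) := by
      rw [hu] at h6; linarith
    have h9 : (2 : ℤ) ∣ u := by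
      have : (2 : ℤ) ∣ u ^ 2 := ⟨z ^ 2 + 1, h8⟩
      exact Int.prime_two.dvd_of_dvd_pow this
    obtain ⟨w, hw⟩ := h9
    refine ⟨w, by rw [hu, hw]; ring, ?_⟩
    rw [hw] at h8; linarith
  · left
    have h6 : (x + y) ^ 2 = 0 := by linear_combination h3 + 4 * h5
    have h7 : x = -y := by
      have := pow_eq_zero_iff (two_ne_zero) |>.mp h6
      linarith
    have h8 : y ^ 2 = z ^ 2 := by
      rw [h7] at h5; linarith
    exact ⟨by rw [h7, abs_neg], (sq_eq_sq_iff_abs_eq_abs y z).mp h8⟩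

/-- Every integer solution of `(x^2-1)(y^2-1)=(z^2-1)^2` is trivial, or belongs to the family
`|x - y| = 2|z|`, or has `z ∤ x - y` and `gcd(z, x - y)^4 < 3|z|^3`. -/
theorem result (x y z : ℤ) (E : (x ^ 2 - 1) * (y ^ 2 - 1) = (z ^ 2 - 1) ^ 2) :
    (|x| = |y| ∧ |y| = |z|) ∨ (|z| = 1 ∧ (|x| = 1 ∨ |y| = 1)) ∨
      (|x - y| = 2 * |z| ∧ ∃ w : ℤ, x + y = 4 * w ∧ z ^ 2 + 1 = 2 * w ^ 2) ∨
      (¬ z ∣ x - y ∧ (Int.gcd z (x - y) : ℤ) ^ 4 < 3 * |z| ^ 3) := by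
  by_cases hxy : |x| = |y|
  · left
    refine ⟨hxy, ?_⟩
    have h1 : x ^ 2 = y ^ 2 := (sq_eq_sq_iff_abs_eq_abs x y).mpr hxy
    rw [h1] at E
    have h2 : (y ^ 2 - z ^ 2) * (y ^ 2 + z ^ 2 - 2) = 0 := by linear_combination E
    rcases mul_eq_zero.mp h2 with h3 | h3
    · exact (sq_eq_sq_iff_abs_eq_abs y z).mp (by linarith)
    · have hy0 : 0 ≤ |y| := abs_nonneg y
      have hz0 : 0 ≤ |z| := abs_nonneg z
      have h4 : |y| ^ 2 + |z| ^ 2 = 2 := by rw [sq_abs, sq_abs]; linarith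
      have h5 : |y| ≤ 1 := by nlinarith
      have h6 : |z| ≤ 1 := by nlinarith
      have h7 : |y| = 0 ∨ |y| = 1 := by omega
      have h8 : |z| = 0 ∨ |z| = 1 := by omega
      rcases h7 with h7 | h7 <;> rcases h8 with h8 | h8 <;> rw [h7, h8] at h4 ⊢ <;>
        norm_num at h4
  by_cases hz : |z| = 1
  · right; left
    refine ⟨hz, ?_⟩
    have h1 : z ^ 2 = 1 := by rw [← sq_abs, hz]; norm_num
    rw [h1] at E
    have h2 : (x ^ 2 - 1) * (y ^ 2 - 1) = 0 := by rw [E]; norm_num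
    rcases mul_eq_zero.mp h2 with h3 | h3
    · left
      have : x ^ 2 = 1 ^ 2 := by linarith
      have := (sq_eq_sq_iff_abs_eq_abs x 1).mp this
      simpa using this
    · right
      have : y ^ 2 = 1 ^ 2 := by linarith
      have := (sq_eq_sq_iff_abs_eq_abs y 1).mp this
      simpa using this
  by_cases h2 : |x - y| = 2 * |z|
  · rcases family x y z E h2 with h3 | h3
    · exact absurd h3.1 hxy
    · exact Or.inr (Or.inr (Or.inl ⟨h2, h3⟩))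
  · exact Or.inr (Or.inr (Or.inr ⟨not_dvd x y z E hxy hz h2, gcd_bound x y z E hxy hz h2⟩))

end Pool.Agent.Results.MP_b95629_nt.CommonDivisor
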