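import Mathlib
import Pool.Agent.H69.RungePlus
import Pool.Agent.H69.RungeMinus

set_option autoImplicit false

namespace Pool.Agent.Results.MP_b95629_nt.SquareClasses

open Pool.Agent.H69.Runge

/-- The core statement for the class `(x+1)(y-1)` a square. -/
lemma coreMinus (x A B z : ℤ) (hx : 2 ≤ x) (hB : 2 ≤ B) (hAB : B < A)
    (hrel : A ^ 2 - 2 * A * B * x + B ^ 2 - x ^ 2 + 1 = 0) (hz : z ^ 2 = A ^ 2 - B ^ 2 + 1) :
    x ^ 15 < 2 * A * B + x := by
  by_contra hcon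
  push Not at hcon
  have hxR : (2 : ℝ) ≤ (x : ℝ) := by exact_mod_cast hx
  have hBR : (2 : ℝ) ≤ (B : ℝ) := by exact_mod_cast hB
  have hABR : (B : ℝ) < (A : ℝ) := by exact_mod_cast hAB
  have hrelR : (A : ℝ) ^ 2 - 2 * A * B * x + B ^ 2 - x ^ 2 + 1 = 0 := by exact_mod_cast hrel
  have hconR : 2 * (A : ℝ) * B + x ≤ (x : ℝ) ^ 15 := by exact_mod_cast hcon
  obtain ⟨s, hs0, hs2⟩ : ∃ s : ℝ, 1.7 ≤ s ∧ s ^ 2 = (x : ℝ) ^ 2 - 1 := by
    refine ⟨√((x : ℝ) ^ 2 - 1), ?_, Real.sq_sqrt (by nlinarith)⟩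
    apply Real.le_sqrt_of_sq_le
    nlinarith
  have hspos : 0 < s := by linarith
  obtain ⟨P, hPdef⟩ : ∃ P : ℝ, P = x + s := ⟨_, rfl⟩
  obtain ⟨Pi, hPidef⟩ : ∃ Pi : ℝ, Pi = x - s := ⟨_, rfl⟩
  have hP : 3.7 ≤ P := by rw [hPdef]; linarith
  have hPP : P * Pi = 1 := by rw [hPdef, hPidef]; linear_combination -hs2
  have hPX : 2 * (x : ℝ) = P + Pi := by rw [hPdef, hPidef]; ring
  have hPs : P - Pi = 2 * s := by rw [hPdef, hPidef]; ring
  have hPpos : 0 < P := by linarith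
  have hPi : 0 < Pi := pos_of P Pi hPpos hPP
  have hP13 : 13 ≤ P ^ 2 := by
    have := pow_le_pow_left₀ (by norm_num) hP 2
    norm_num at this
    linarith
  have hPi1 : 13 * Pi ≤ P := by
    have := mul_le_mul_of_nonneg_right hP13 hPi.le
    linarith [show P ^ 2 * Pi = P * (P * Pi) by ring, show P * (P * Pi) = P by rw [hPP]; ring]
  have hPi1' : Pi < 1 := lt_one_of P Pi (by linarith) hPP
  obtain ⟨q, hqdef⟩ : ∃ q : ℝ, q = ((A : ℝ) * P - B) / s := ⟨_, rfl⟩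
  obtain ⟨q', hq'def⟩ : ∃ q' : ℝ, q' = ((A : ℝ) * Pi - B) / s := ⟨_, rfl⟩
  have hqs : q * s = (A : ℝ) * P - B := by rw [hqdef]; field_simp
  have hq's : q' * s = (A : ℝ) * Pi - B := by rw [hq'def]; field_simp
  have f1 : q - q' = 2 * A := by
    have : (q - q') * s = 2 * A * s := by linear_combination hqs - hq's + (A : ℝ) * hPs
    exact mul_right_cancel₀ hspos.ne' this
  have f2 : q * Pi - q' * P = 2 * B := by
    have : (q * Pi - q' * P) * s = 2 * B * s := by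
      linear_combination Pi * hqs - P * hq's + (B : ℝ) * hPs
    exact mul_right_cancel₀ hspos.ne' this
  have f3 : q * q' = 1 := by
    have : (q * q') * s ^ 2 = 1 * s ^ 2 := by
      have h1 : (q * q') * s ^ 2 = (q * s) * (q' * s) := by ring
      rw [h1, hqs, hq's, hs2]
      linear_combination hrelR + (A : ℝ) * B * hPX + (A : ℝ) ^ 2 * hPP
    exact mul_right_cancel₀ (by positivity) this
  have hq : 0 < q := by
    rw [hqdef]
    apply div_pos _ hspos
    have h1 : (A : ℝ) * 1 ≤ A * P := mul_le_mul_of_nonneg_left (by linarith) (by linarith)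
    linarith
  have hq' : 0 < q' := pos_of q q' hq f3
  -- `q > P`
  have g5 : P < q := by
    have h1 : q' * P < q * Pi := by linarith
    have h2 : q * (q' * P) * P < q * (q * Pi) * P :=
      mul_lt_mul_of_pos_right (mul_lt_mul_of_pos_left h1 hq) hPpos
    have h3 : q * (q' * P) * P = P ^ 2 := by
      calc q * (q' * P) * P = (q * q') * P ^ 2 := by ring
        _ = P ^ 2 := by rw [f3]; ring
    have h4 : q * (q * Pi) * P = q ^ 2 := by
      calc q * (q * Pi) * P = q ^ 2 * (P * Pi) := by ring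
        _ = q ^ 2 := by rw [hPP]; ring
    have h5 : P ^ 2 < q ^ 2 := by linarith
    exact lt_of_pow_lt_pow_left₀ 2 hq.le h5
  have g2 : 2 * (2 * (A : ℝ) * B + x) = q ^ 2 * Pi + q' ^ 2 * P := by
    have h1 : 4 * (A : ℝ) * B = (q - q') * (q * Pi - q' * P) := by rw [f1, f2]; ring
    linear_combination h1 - (P + Pi) * f3 + hPX
  -- `q < P ^ 8`
  have g6 : q < P ^ 8 := by
    have h1 : q ^ 2 * Pi < 2 * (x : ℝ) ^ 15 := by
      have : 0 < q' ^ 2 * P := by positivity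
      linarith
    have h2 : (x : ℝ) ≤ 7 / 13 * P := by linarith
    have h3 : (x : ℝ) ^ 15 ≤ (7 / 13 * P) ^ 15 := pow_le_pow_left₀ (by linarith) h2 15
    have h4 : (7 / 13 * P) ^ 15 = (7 / 13 : ℝ) ^ 15 * P ^ 15 := by ring
    have h5 : 2 * (7 / 13 : ℝ) ^ 15 < 1 := by norm_num
    have h6 : 2 * (x : ℝ) ^ 15 < P ^ 15 := by
      have h7 : 0 < P ^ 15 := by positivity
      have h8 := mul_lt_mul_of_pos_right h5 h7
      linarith
    have h7 : q ^ 2 < P ^ 16 := by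
      have h8 : q ^ 2 * Pi * P < P ^ 15 * P := mul_lt_mul_of_pos_right (by linarith) hPpos
      have h9 : q ^ 2 * Pi * P = q ^ 2 := by
        calc q ^ 2 * Pi * P = q ^ 2 * (P * Pi) := by ring
          _ = q ^ 2 := by rw [hPP]; ring
      have h10 : P ^ 15 * P = P ^ 16 := by ring
      linarith
    have h8 : q ^ 2 < (P ^ 8) ^ 2 := by
      have : (P ^ 8) ^ 2 = P ^ 16 := by ring
      linarith
    exact lt_of_pow_lt_pow_left₀ 2 (by positivity) h8
  -- the recurrence sequence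
  obtain ⟨w, hw⟩ : ∃ w : ℤ, w = 2 * x * B - A := ⟨_, rfl⟩
  obtain ⟨c3, hc3⟩ : ∃ c3 : ℤ, c3 = 2 * x * w - B := ⟨_, rfl⟩
  obtain ⟨v, hv⟩ : ∃ v : ℤ, v = 2 * x * c3 - w := ⟨_, rfl⟩
  obtain ⟨c5, hc5⟩ : ∃ c5 : ℤ, c5 = 2 * x * v - c3 := ⟨_, rfl⟩
  obtain ⟨r, hr⟩ : ∃ r : ℤ, r = 2 * x * c5 - v := ⟨_, rfl⟩
  have step : ∀ (j : ℕ) (a b c : ℝ), 2 * a = q * Pi ^ j - q' * P ^ j →
      2 * b = q * Pi ^ (j + 1) - q' * P ^ (j + 1) → c = 2 * x * b - a →
      2 * c = q * Pi ^ (j + 2) - q' * P ^ (j + 2) := by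
    intro j a b c ha hb hc
    have h1 : 2 * c = 2 * x * (2 * b) - 2 * a := by rw [hc]; ring
    rw [h1, ha, hb, hPX]
    linear_combination (q * Pi ^ j - q' * P ^ j) * hPP
  have k0 : 2 * (A : ℝ) = q * Pi ^ 0 - q' * P ^ 0 := by
    rw [pow_zero, pow_zero]; linarith
  have k1 : 2 * (B : ℝ) = q * Pi ^ (0 + 1) - q' * P ^ (0 + 1) := by
    rw [zero_add, pow_one, pow_one]; linarith
  have k2 := step 0 A B w k0 k1 (by rw [hw]; push_cast; ring)
  have k3 := step 1 B w c3 k1 k2 (by rw [hc3]; push_cast; ring)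
  have k4 := step 2 w c3 v k2 k3 (by rw [hv]; push_cast; ring)
  have k5 := step 3 c3 v c5 k3 k4 (by rw [hc5]; push_cast; ring)
  have k6 := step 4 v c5 r k4 k5 (by rw [hr]; push_cast; ring)
  norm_num at k0 k1 k2 k3 k4 k5 k6
  have canc : ∀ j : ℕ, q * Pi ^ j * P ^ j = q ∧ q' * P ^ j * Pi ^ j = q' := by
    intro j
    constructor
    · rw [mul_assoc, ← mul_pow, mul_comm Pi P, hPP]; ring
    · rw [mul_assoc, ← mul_pow, hPP]; ring
  have tt : ∀ j : ℕ, (q * Pi ^ j) * (q' * P ^ j) = 1 := by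
    intro j
    calc (q * Pi ^ j) * (q' * P ^ j) = (q * q') * (P * Pi) ^ j := by rw [mul_pow]; ring
      _ = 1 := by rw [f3, hPP]; ring
  have tge : ∀ j : ℕ, P ^ j ≤ q → 1 ≤ q * Pi ^ j := by
    intro j h
    have h1 := mul_le_mul_of_nonneg_right h (pow_nonneg hPi.le j)
    rwa [← mul_pow, hPP, one_pow] at h1
  have tle : ∀ j : ℕ, q < P ^ (j + 2) → q * Pi ^ j ≤ P ^ 2 := by
    intro j h
    have h1 := mul_le_mul_of_nonneg_right h.le (pow_nonneg hPi.le j)
    have h2 : P ^ (j + 2) * Pi ^ j = P ^ 2 := by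
      calc P ^ (j + 2) * Pi ^ j = P ^ 2 * (P * Pi) ^ j := by rw [mul_pow]; ring
        _ = P ^ 2 := by rw [hPP]; ring
    linarith
  rcases lt_or_ge q (P ^ 2) with c0 | c0
  · -- range 0
    have h1 : q * Pi ^ 2 < 1 := by
      have h1 := mul_lt_mul_of_pos_right c0 (pow_pos hPi 2)
      rwa [← mul_pow, hPP, one_pow] at h1
    have h2 : q' * P < 1 := by
      have := mul_lt_mul_of_pos_left g5 hq'
      linarith [show q' * q = q * q' by ring]
    have h2' : q' < 1 := lt_one_of q q' (by linarith) f3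
    have h3 : 4 * (B : ℝ) ^ 2 = q * (q * Pi ^ 2) - 2 + (q' * P) ^ 2 := by
      have : 4 * (B : ℝ) ^ 2 = (2 * B) ^ 2 := by ring
      rw [this, ← f2]
      linear_combination -2 * P * Pi * f3 - 2 * hPP
    have h4 : (q' * P) ^ 2 < 1 := by
      have h5 : 0 < q' * P := by positivity
      calc (q' * P) ^ 2 = (q' * P) * (q' * P) := by ring
        _ < 1 * 1 := mul_lt_mul'' h2 h2 h5.le h5.le
        _ = 1 := by ring
    have h5 : q * (q * Pi ^ 2) < q := by
      calc q * (q * Pi ^ 2) < q * 1 := mul_lt_mul_of_pos_left h1 hq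
        _ = q := by ring
    have h6 : (B : ℝ) ^ 2 < 2 * A := by linarith
    have h7 : B ^ 2 < 2 * A := by exact_mod_cast h6
    have h8 : 4 ≤ B ^ 2 := by
      have := pow_le_pow_left₀ (by norm_num) hB 2
      norm_num at this
      linarith
    exact nosq z A (1 - B ^ 2) (by linarith) (by linarith) (by linarith) (by linarith)
      (by linarith)
  rcases lt_or_ge q (P ^ 4) with c1 | c1
  · -- range 1
    obtain ⟨a1, a2, a3⟩ := caseM1 P Pi (q * Pi ^ 2) (q' * P ^ 2) x A w hP hPP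
      (tge 2 c0) (tt 2) (tle 2 c1) hPX (by
        rw [(canc 2).1, (canc 2).2]; linarith) k2
    have b1 : 0 < 2 * A - w := by exact_mod_cast a1
    have b2 : -4 * x ^ 2 + 8 - w ^ 2 < 0 := by exact_mod_cast a2
    refine nosq (2 * z) (2 * A - w) (-4 * x ^ 2 + 8 - w ^ 2) b1 ?_ b2.ne
      (by exact_mod_cast a3) (by linarith)
    rw [hw]
    linear_combination 4 * hz - 4 * hrel
  rcases lt_or_ge q (P ^ 6) with c2 | c2
  · -- range 2
    obtain ⟨a1, a2, a3⟩ := caseM2 P Pi (q * Pi ^ 4) (q' * P ^ 4) x A w v hP hPP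
      (tge 4 c1) (tt 4) (tle 4 c2) hPX (by
        rw [(canc 4).1, (canc 4).2]; linarith) (by
        rw [k2]
        have e1 : q * Pi ^ 4 * P ^ 2 = q * Pi ^ 2 * (Pi ^ 2 * P ^ 2) := by ring
        have e2 : q' * P ^ 4 * Pi ^ 2 = q' * P ^ 2 * (P ^ 2 * Pi ^ 2) := by ring
        have e3 : P ^ 2 * Pi ^ 2 = 1 := by rw [← mul_pow, hPP]; ring
        rw [e1, e2, mul_comm (Pi ^ 2) (P ^ 2), e3]; ring) k4
    have b1 : 0 < 8 * A - 4 * w - v := by exact_mod_cast a1
    have b2 : -64 * x ^ 4 + 128 - 8 * w * v - v ^ 2 < 0 := by exact_mod_cast a2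
    refine nosq (8 * z) (8 * A - 4 * w - v) (-64 * x ^ 4 + 128 - 8 * w * v - v ^ 2)
      b1 ?_ b2.ne (by exact_mod_cast a3) (by linarith)
    rw [hv, hc3, hw]
    linear_combination 64 * hz - (64 * x ^ 2 + 64) * hrel
  · -- range 3
    obtain ⟨a1, a2, a3⟩ := caseM3 P Pi (q * Pi ^ 6) (q' * P ^ 6) x A w v r hP hPP
      (tge 6 c2) (tt 6) (tle 6 g6) hPX (by
        rw [(canc 6).1, (canc 6).2]; linarith) (by
        rw [k2]
        have e1 : q * Pi ^ 6 * P ^ 4 = q * Pi ^ 2 * (P ^ 4 * Pi ^ 4) := by ring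
        have e2 : q' * P ^ 6 * Pi ^ 4 = q' * P ^ 2 * (P ^ 4 * Pi ^ 4) := by ring
        have e3 : P ^ 4 * Pi ^ 4 = 1 := by rw [← mul_pow, hPP]; ring
        rw [e1, e2, e3]; ring) (by
        rw [k4]
        have e1 : q * Pi ^ 6 * P ^ 2 = q * Pi ^ 4 * (P ^ 2 * Pi ^ 2) := by ring
        have e2 : q' * P ^ 6 * Pi ^ 2 = q' * P ^ 4 * (P ^ 2 * Pi ^ 2) := by ring
        have e3 : P ^ 2 * Pi ^ 2 = 1 := by rw [← mul_pow, hPP]; ring
        rw [e1, e2, e3]; ring) k6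
    have b1 : 0 < 16 * A - 8 * w - 2 * v - r := by exact_mod_cast a1
    have b2 : -(512 * x ^ 6 - 576 * x ^ 4 + 320 * x ^ 2) + 512 - 20 * v ^ 2 - 4 * v * r - r ^ 2
        < 0 := by exact_mod_cast a2
    refine nosq (16 * z) (16 * A - 8 * w - 2 * v - r)
      (-(512 * x ^ 6 - 576 * x ^ 4 + 320 * x ^ 2) + 512 - 20 * v ^ 2 - 4 * v * r - r ^ 2)
      b1 ?_ b2.ne (by exact_mod_cast a3) (by linarith)
    rw [hr, hc5, hv, hc3, hw]
    linear_combination 256 * hz + (-512 * x ^ 4 + 64 * x ^ 2 - 256) * hrel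

/-- The class `(x+1)(y-1) = □`: either `y > x^15`, or the solution belongs to the family of
Gerardin and Szymiczek. -/
lemma minusClass (x y z : ℤ) (hx : 1 < x) (hxy : x < y) (hz0 : 0 < z)
    (h : (x ^ 2 - 1) * (y ^ 2 - 1) = (z ^ 2 - 1) ^ 2) (hs : IsSquare ((x + 1) * (y - 1))) :
    x ^ 15 < y ∨ ∃ e : ℤ, 0 < e ∧ x ^ 2 - 1 = 2 * e ^ 2 ∧ y = 3 * x + 4 * e ∧ z = x + 2 * e := by
  obtain ⟨r0, hr0⟩ := hs
  obtain ⟨r, hr, hrpos⟩ : ∃ r : ℤ, (x + 1) * (y - 1) = r ^ 2 ∧ 0 < r := by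
    refine ⟨|r0|, ?_, ?_⟩
    · rw [sq_abs, hr0]; ring
    · have h1 : 0 < (x + 1) * (y - 1) := by
        apply mul_pos <;> linarith
      rw [hr0] at h1
      have h2 : r0 ≠ 0 := by
        rintro rfl
        simp at h1
      exact abs_pos.mpr h2
  have h1 : (z ^ 2 - 1) ^ 2 = r ^ 2 * ((x - 1) * (y + 1)) := by
    rw [← h, ← hr]; ring
  have h2 : r ∣ z ^ 2 - 1 := by
    have : r ^ 2 ∣ (z ^ 2 - 1) ^ 2 := ⟨_, h1⟩
    exact (Int.pow_dvd_pow_iff (by norm_num)).mp this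
  obtain ⟨t, ht⟩ := h2
  have h3 : (x - 1) * (y + 1) = t ^ 2 := by
    have h4 : r ^ 2 * ((x - 1) * (y + 1)) = r ^ 2 * t ^ 2 := by
      rw [← h1, ht]; ring
    exact mul_left_cancel₀ (pow_ne_zero 2 hrpos.ne') h4
  have hbig : 1 < (z ^ 2 - 1) ^ 2 := by
    rw [← h]
    have a1 : 3 ≤ x ^ 2 - 1 := by nlinarith
    have a2 : 3 ≤ y ^ 2 - 1 := by nlinarith
    nlinarith
  have hzpos : 0 < z ^ 2 - 1 := by
    by_contra hcon
    push Not at hcon
    have : 0 ≤ z ^ 2 := sq_nonneg z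
    nlinarith
  have htpos : 0 < t := by
    by_contra hcon
    push Not at hcon
    have : r * t ≤ 0 := mul_nonpos_of_nonneg_of_nonpos hrpos.le hcon
    linarith
  obtain ⟨A, hA⟩ : ∃ A : ℤ, r + t = 2 * A := by
    have h4 : r ^ 2 + t ^ 2 = 2 * (x * y - 1) := by rw [← hr, ← h3]; ring
    have h5 : Even (r ^ 2 + t ^ 2) := ⟨x * y - 1, by rw [h4]; ring⟩
    have h6 : Even (r + t) := by
      have : (r ^ 2 + t ^ 2) + 2 * (r * t) = (r + t) ^ 2 := by ring
      have h7 : Even ((r + t) ^ 2) := by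
        rw [← this]
        exact h5.add (even_two_mul _)
      exact (Int.even_pow' (by norm_num)).mp h7
    obtain ⟨A, hA⟩ := h6
    exact ⟨A, by rw [hA]; ring⟩
  obtain ⟨B, hB⟩ : ∃ B : ℤ, B = A - t := ⟨_, rfl⟩
  have hrAB : r = A + B := by linarith
  have htAB : t = A - B := by linarith
  have hdiff : y - x = 2 * A * B := by
    have : 2 * (y - x) = r ^ 2 - t ^ 2 := by rw [← hr, ← h3]; ring
    rw [hrAB, htAB] at this
    linarith [show (A + B) ^ 2 - (A - B) ^ 2 = 4 * A * B by ring]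
  have hprod : x * y = A ^ 2 + B ^ 2 + 1 := by
    have : 2 * (x * y) - 2 = r ^ 2 + t ^ 2 := by rw [← hr, ← h3]; ring
    rw [hrAB, htAB] at this
    linarith [show (A + B) ^ 2 + (A - B) ^ 2 = 2 * A ^ 2 + 2 * B ^ 2 by ring]
  have hz : z ^ 2 = A ^ 2 - B ^ 2 + 1 := by
    have : z ^ 2 = r * t + 1 := by linarith
    rw [this, hrAB, htAB]; ring
  have hABpos : 0 < A := by linarith
  have hB1 : 1 ≤ B := by
    by_contra hcon
    push Not at hcon
    have : A * B ≤ 0 := mul_nonpos_of_nonneg_of_nonpos hABpos.le (by linarith)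
    linarith
  rcases eq_or_lt_of_le hB1 with h4 | h4
  · right
    rw [← h4] at hdiff hprod hz
    have h5 : y = x + 2 * A := by linarith
    rw [h5] at hprod
    have hzA : z = A := by
      have h6 : z ^ 2 = A ^ 2 := by rw [hz]; ring
      have h7 : |z| = |A| := sq_eq_sq_iff_abs_eq_abs z A |>.mp h6
      rwa [abs_of_pos hz0, abs_of_pos hABpos] at h7
    have h6 : 2 * (x ^ 2 - 1) = (A - x) ^ 2 := by linear_combination 2 * hprod - hprod
    have h7 : Even (A - x) := by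
      have : Even ((A - x) ^ 2) := ⟨x ^ 2 - 1, by rw [← h6]; ring⟩
      exact (Int.even_pow' (by norm_num)).mp this
    obtain ⟨e, he⟩ := h7
    have h8 : A = x + 2 * e := by linarith
    have h9 : x ^ 2 - 1 = 2 * e ^ 2 := by
      rw [he] at h6
      linarith [show (e + e) ^ 2 = 4 * e ^ 2 by ring]
    refine ⟨e, ?_, h9, by rw [h5, h8]; ring, by rw [hzA, h8]⟩
    -- positivity of `e`
    by_contra hcon
    push Not at hcon
    have h10 : A ^ 2 = x ^ 2 + 2 * A * x - 2 := by linear_combination -hprod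
    have h11 : A ≤ x := by linarith
    nlinarith
  · left
    have hfin := coreMinus x A B z (by linarith) (by linarith) (by linarith)
      (by
        have h5 : 2 * A * B * x = (y - x) * x := by rw [hdiff]
        linear_combination -hprod - h5)
      hz
    linarith

/-- **Solutions in the two square classes.** Let `1 < x < y ≤ x^15` and `z > 0` be integers such
that `(x+1)(y+1)` or `(x+1)(y-1)` is a perfect square. Then `(x^2-1)(y^2-1) = (z^2-1)^2` holds if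
and only if `(x, y, z) = (x, 3x+4e, x+2e)` for some positive integer `e` with
`x^2 - 2e^2 = 1`. -/
theorem result (x y z : ℤ) (hx : 1 < x) (hxy : x < y) (hyx : y ≤ x ^ 15) (hz : 0 < z)
    (hs : IsSquare ((x + 1) * (y + 1)) ∨ IsSquare ((x + 1) * (y - 1))) :
    (x ^ 2 - 1) * (y ^ 2 - 1) = (z ^ 2 - 1) ^ 2 ↔
      ∃ e : ℤ, 0 < e ∧ x ^ 2 - 2 * e ^ 2 = 1 ∧ y = 3 * x + 4 * e ∧ z = x + 2 * e := by
  constructor
  · intro h
    rcases hs with hs | hs
    · exact absurd (plusClass x y z hx hxy h hs) (not_lt.mpr hyx)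
    · rcases minusClass x y z hx hxy hz h hs with h1 | ⟨e, he, h1, h2, h3⟩
      · exact absurd h1 (not_lt.mpr hyx)
      · exact ⟨e, he, by linarith, h2, h3⟩
  · rintro ⟨e, _, h1, rfl, rfl⟩
    have h2 : x ^ 2 = 1 + 2 * e ^ 2 := by linarith
    have h3 : (3 * x + 4 * e) ^ 2 - 1 = 2 * (2 * x + 3 * e) ^ 2 := by
      linear_combination h1
    have h4 : (x + 2 * e) ^ 2 - 1 = 2 * e * (2 * x + 3 * e) := by
      linear_combination h1
    rw [h3, h4, show x ^ 2 - 1 = 2 * e ^ 2 by linarith]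
    ring

end Pool.Agent.Results.MP_b95629_nt.SquareClasses
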